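import Pool.Agent.Q65.Horse415091

/-!
# MP_415091_an: bounded non-convergent solutions of a third-order rational recurrence

There are parameters and a bounded solution which converges to no periodic sequence.
-/

set_option autoImplicit false

namespace Pool.Agent.Results.MP_415091_an.Chaotic

open Filter Topology

/-- `x` is the solution of `x_{n+1} = (α + x_{n-2}) / (A + B x_n + x_{n-1})` with nonnegative initial
values; the index is shifted by two, so `x 0, x 1, x 2` stand for `x_{-2}, x_{-1}, x_0` -/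
def IsSolution (α A B : ℝ) (x : ℕ → ℝ) : Prop :=
  0 ≤ x 0 ∧ 0 ≤ x 1 ∧ 0 ≤ x 2 ∧ ∀ n, x (n + 3) = (α + x n) / (A + B * x (n + 2) + x (n + 1))

/-- the positive equilibrium -/
noncomputable def xbar (α A B : ℝ) : ℝ :=
  (1 - A + √((1 - A) ^ 2 + 4 * α * (B + 1))) / (2 * (B + 1))

/-- **There are `α, A, B > 0` and a bounded solution which does not converge to the equilibrium and
whose distance to every periodic sequence does not tend to zero.** -/
theorem result : ∃ α A B : ℝ, 0 < α ∧ 0 < A ∧ 0 < B ∧ ∃ x : ℕ → ℝ, IsSolution α A B x ∧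
    BddAbove (Set.range x) ∧ ¬ Tendsto x atTop (𝓝 (xbar α A B)) ∧
    ∀ (p : ℕ → ℝ) (k : ℕ), 0 < k → (∀ n, p (n + k) = p n) →
      ¬ Tendsto (fun n => x n - p n) atTop (𝓝 0) := by
  obtain ⟨y, hy, ⟨R, hR⟩, hper⟩ := Q65.Horse415091.exists_sol
  refine ⟨Real.exp (-600), Real.exp (-600), Real.exp 540, Real.exp_pos _, Real.exp_pos _,
    Real.exp_pos _, fun n => Real.exp (y n), ⟨(Real.exp_pos _).le, (Real.exp_pos _).le,
      (Real.exp_pos _).le, ?_⟩, ⟨R, ?_⟩, ?_, hper⟩
  · intro n
    show Real.exp (y (n + 3)) = _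
    rw [hy n]
    unfold Q65.Horse415091.G
    rw [Real.exp_sub, Real.exp_log (by positivity), Real.exp_log (by positivity), Real.exp_add]
  · rintro _ ⟨n, rfl⟩
    exact hR n
  · intro h
    refine hper (fun _ => xbar (Real.exp (-600)) (Real.exp (-600)) (Real.exp 540)) 1 one_pos
      (fun _ => rfl) ?_
    have := h.sub_const (xbar (Real.exp (-600)) (Real.exp (-600)) (Real.exp 540))
    simpa using this

end Pool.Agent.Results.MP_415091_an.Chaotic
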